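import Pool.Agent.Lib.MP_88cfb8_co.Proof

open Pool.Agent.Lib.MP_88cfb8_co

/-- Q1: for all `1 ≤ L ≤ M` there is `Θ` with `f_I(n+L+M) = f_I(n)+M` and
`f_II(n+L+M) = f_II(n)+M` for every `n ≥ Θ`. -/
theorem Pool.Agent.Results.MP_88cfb8_co.QuasiPeriodic.result :
    ∀ L M : ℕ, 1 ≤ L → L ≤ M → ∃ Θ : ℕ, ∀ n : ℕ, Θ ≤ n →
      fI L M (n + L + M) = fI L M n + M ∧ fII L M (n + L + M) = fII L M n + M :=
  fun L M hL hLM => ⟨3 * L * (L + M) + M, fun n hn => main L M hL hLM n hn⟩
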